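import Mathlib

set_option autoImplicit false

/-!
# Project SR (helper693, MP_18a8a6_lc): primitive roots modulo every prime from few random bits

Statements of the parts (everything in this file depends on Mathlib only).
-/

namespace H693SR

open Finset

open Classical in
/-- **S_B** (a scale on which the set `N` has positive density).

`N` plays the role of the set of the `l`-th power nonresidues modulo `p`, `x = 2 ^ k`.
PROOF. If `0 ∈ N` take `i = 0`. So let `0 ∉ N`. Assume that the conclusion fails, and put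
`T z = #{n < z : n ∈ N}`, `c₂ = c / 8 ≤ 1 / 8`. Then `T (2 ^ i) < c₂ 2 ^ i` for all `i ≤ k`, hence
`T z ≤ 2 c₂ z` for all `1 ≤ z ≤ x` (take the least power of two `≥ z`; it is `≤ x` and `< 2 z`).
Let `Q` be the set of the primes `q ≤ y` in `N` and `S = ∑_{q ∈ Q} 1 / q ≥ c`.
Let `W` be the number of the pairs `(q, m)` with `q ∈ Q`, `m ≥ 1`, `m ∉ N`, `q m < x`.
LOWER BOUND: for `q ∈ Q` there are `⌊(x - 1) / q⌋ ≥ x / q - 1` numbers `m ≥ 1` with `q m < x`, and at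
most `T (⌊(x - 1) / q⌋ + 1) ≤ 2 c₂ (x / q + 1)` of them are in `N` (the argument is between `1` and
`x`). So `W ≥ ∑_q (x / q - 1 - 2 c₂ (x / q + 1)) = (1 - 2 c₂) S x - (1 + 2 c₂) #Q ≥
(3/4) S x - (5/4) y ≥ (3/4) S x - (5/64) c x ≥ S x / 2`, because `#Q ≤ y ≤ c x / 16` and `c ≤ S`.
UPPER BOUND: `(q, m) ↦ (q, q m)` is injective and `q m ∈ N` by hypothesis, so
`W ≤ ∑_{n ∈ N, n < x} ω(n)`, `ω(n) = #{q ∈ Q : q ∣ n}`, and by Cauchy-Schwarz
`W² ≤ T x * ∑_{1 ≤ n < x} ω(n)²`, and `∑_{1 ≤ n < x} ω(n)² = ∑_{q, q' ∈ Q} #{1 ≤ n < x : q ∣ n, q' ∣ n}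
≤ ∑_{q ≠ q'} x / (q q') + ∑_q x / q ≤ x (S² + S)` (different primes are coprime).
So `S² x² / 4 ≤ W² ≤ c₂ x * x (S² + S)` (strict if the right side is positive), i.e.
`S / 4 ≤ c₂ (S + 1)`. But `c₂ (S + 1) = (c / 8) (S + 1) ≤ c / 8 + S / 8 * c < S / 4` if `c < 1` or
`c < S`; use the STRICT inequality `T x < c₂ x` to get a contradiction also for `c = S = 1`
(`S > 0` and the strict form give `S / 4 < c₂ (S + 1) ≤ S / 4`). -/
def S_B : Prop :=
  ∀ (c : ℝ) (k y : ℕ) (N : Set ℕ), 0 < c → c ≤ 1 → (y : ℝ) ≤ c / 16 * 2 ^ k →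
    (∀ q m : ℕ, q.Prime → q ∈ N → 1 ≤ m → m ∉ N → q * m < 2 ^ k → q * m ∈ N) →
    c ≤ ∑ q ∈ (Icc 1 y).filter (fun q => q.Prime ∧ q ∈ N), (1 : ℝ) / q →
    ∃ i ≤ k, c / 8 * 2 ^ i ≤ (#((range (2 ^ i)).filter (fun n => n ∈ N)) : ℝ)

/-- **S_C** (small bias of the points `b (1, a, a², …)` of `(ℤ/r)^K`).

If no point `x + b (1, a, a², …, a^(K-1))`, `x ∈ Z`, is in `C`, then `|Z| |C|` is small.
PROOF. Let `V = Fin K → ZMod r`, `e` the standard additive character `ZMod r → ℂ`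
(`ZMod.stdAddChar`, primitive because `r` is prime), `⟨s, v⟩ = ∑ i, s i * v i`,
`Zh s = ∑_{x ∈ Z} e ⟨s, x⟩`, `Ch s = ∑_{y ∈ C} e ⟨s, y⟩`, `w a = (a ^ i)_i`.
(1) Orthogonality: `∑_s e ⟨s, v⟩ = r ^ K` if `v = 0` and `= 0` otherwise (if `v j ≠ 0` the sum over `s j`
vanishes; or: `s ↦ e ⟨s, v⟩` is a nontrivial additive character of `V`, `AddChar.sum_eq_zero_of_ne_one`).
(2) Parseval: `∑_s |Zh s|² = r ^ K |Z|`, the same for `C`.
(3) The number of the quadruples `(x, y, a, b)`, `x ∈ Z`, `y ∈ C`, `y = x + b w a`, is `0`. By (1) it is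
`r ^ (-K) ∑_s ∑_{a, b} conj-free form: ∑_{x, y} e ⟨s, x - y⟩ e (b ⟨s, w a⟩) =
r ^ (-K) ∑_s Zh s * Ch (-s) * (r * #{a : ⟨s, w a⟩ = 0})`.
(4) For `s = 0` the last factor is `r²`, `Zh 0 = |Z|`, `Ch 0 = |C|`. For `s ≠ 0` the number of the `a`
with `⟨s, w a⟩ = ∑ i, s i * a ^ i = 0` is at most `K` (a nonzero polynomial of degree `< K` over the field
`ZMod r`).
(5) So `|Z| |C| r² ≤ r K ∑_{s ≠ 0} |Zh s| |Ch (-s)| ≤ r K (r ^ K √(|Z| |C|))` by Cauchy-Schwarz and (2),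
hence `√(|Z| |C|) r ≤ K r ^ K`. Square. -/
def S_C : Prop :=
  ∀ (r : ℕ) [Fact r.Prime] (K : ℕ) (Z C : Finset (Fin K → ZMod r)),
    (∀ x ∈ Z, ∀ a b : ZMod r, (fun i : Fin K => x i + b * a ^ (i : ℕ)) ∉ C) →
    #Z * #C * r ^ 2 ≤ K ^ 2 * (r ^ K) ^ 2

/-- the number with the base-`r` digits `(u / r ^ i + b a ^ i) mod r`, `i < K` -/
def ent (r K u a b : ℕ) : ℕ :=
  ((List.range K).map fun i => ((u / r ^ i + b * a ^ i) % r) * r ^ i).sum

open Classical in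
/-- **S_D** (the same for numbers). `M = r ^ K`, `C` a set of numbers below `M`, `Z` the set of the
`u < M` such that no `ent r K u a b`, `a, b < r`, is in `C`.
PROOF from `S_C`. The map `φ : (Fin K → ZMod r) → ℕ`, `φ v = ∑ i, (v i).val * r ^ i`, is a bijection
onto `range (r ^ K)` (for instance via `finFunctionFinEquiv`, or `Nat.ofDigits`), with inverse
`u ↦ (i ↦ (u / r ^ i : ZMod r))`, and `ent r K (φ v) a b = φ (fun i => v i + b a ^ i)` because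
`(u / r ^ i + b a ^ i) % r = ((u / r ^ i : ZMod r) + b * a ^ i).val` (`ZMod.val_natCast`). Apply `S_C`
to the preimages of `Z` and `C`; the elements of `ZMod r` are the `(a : ZMod r)`, `a < r`. -/
def S_D : Prop :=
  ∀ (r : ℕ), r.Prime → ∀ (K : ℕ) (C : Finset ℕ), C ⊆ range (r ^ K) →
    #((range (r ^ K)).filter (fun u => ∀ a < r, ∀ b < r, ent r K u a b ∉ C)) * #C * r ^ 2 ≤
      K ^ 2 * (r ^ K) ^ 2

/-- `ent` only depends on `u` modulo `r ^ K`.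
PROOF. `(u % r ^ K) / r ^ i` and `u / r ^ i` are congruent modulo `r` for `i < K`
(`u = r ^ K t + (u % r ^ K)`, and `r ^ K t / r ^ i = r ^ (K - i) t` is divisible by `r`). -/
def S_M : Prop :=
  ∀ (r K u a b : ℕ), 0 < r → ent r K (u % r ^ K) a b = ent r K u a b

open Classical in
/-- **S_A** (the nonresidues below `p ^ (1 / (4 e^β) + ε)`, `β = 1 - 1 / L`).
PROOF. This is the proof of `Pool.Agent.Q265.PR.least_fix` (library file
`Pool/Graph/R_pool_sql_team_seeded_3997aac3/Q265/PR/D.lean`, import it) with small changes: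
in the place of the hypothesis `hcon` (no nonresidue `b ≤ y`) count directly. Let `β = 1 - 1 / L`,
`η, b, γ, C, N0, L0, y, X, χ` as there (with `β` for `1 - 1 / l`; the order of `χ` is `l ≥ L`).
A number `m ≤ X` whose prime factors are all `≤ y` and are all residues is a residue, so
`X - X * ∑_{y < q ≤ X} 1 / q - X * ∑_{q ≤ y, q nonresidue} 1 / q ≤ #{m ≤ X : χ m = 1}
  ≤ X / l + (γ / 3) X ≤ (1 - β) X + (γ / 3) X` (`count_one`), and `∑_{y < q ≤ X} 1 / q ≤ β - γ + γ / 3`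
(`hprim` there). So the sum over the nonresidue primes `q ≤ y` is at least `γ / 3 =: c`.
(For the first inequality adapt `smooth_count`: the exceptional `m` are divisible by a prime
`q ∈ (y, X]` or by a nonresidue prime `q ≤ y`.) -/
def S_A : Prop :=
  ∀ (L : ℕ), 2 ≤ L → ∀ ε : ℝ, 0 < ε → ∃ (c : ℝ) (p₀ : ℕ), 0 < c ∧ ∀ p : ℕ, p₀ ≤ p → p.Prime →
    ∀ l : ℕ, l.Prime → L ≤ l → l ∣ p - 1 →
      c ≤ ∑ q ∈ (Icc 1 ⌊(p : ℝ) ^ (1 / (4 * Real.exp (1 - 1 / (L : ℝ))) + ε)⌋₊).filter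
        (fun q : ℕ => q.Prime ∧ ((q : ℕ) : ZMod p) ^ ((p - 1) / l) ≠ 1), (1 : ℝ) / q

open Classical in
/-- **S_K** (for large `l` there are many nonresidues below `p ^ δ`).
PROOF. This is the proof of `Pool.Agent.Q265.PR.least_big` (library file
`Pool/Graph/R_pool_sql_team_seeded_3997aac3/Q265/PR/C.lean`, import it): with `κ, c, X, S` as there (`S` the
`X ^ κ`-smooth numbers, `#S ≥ c (X + 1)`), every element of `S` is a residue or is divisible by a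
nonresidue prime `q ≤ p ^ δ`. So `c X ≤ #S ≤ #{m ≤ X : χ m = 1} + X * ∑_{q ≤ p ^ δ, nonresidue} 1 / q ≤
X / l + (c / 4) X + X * ∑ …`, and for `l ≥ K ≥ 4 / c` the sum is at least `c / 2`. -/
def S_K : Prop :=
  ∀ δ : ℝ, 0 < δ → ∃ (c : ℝ) (K p₀ : ℕ), 0 < c ∧ ∀ p : ℕ, p₀ ≤ p → p.Prime →
    ∀ l : ℕ, l.Prime → K ≤ l → l ∣ p - 1 →
      c ≤ ∑ q ∈ (Icc 1 ⌊(p : ℝ) ^ δ⌋₊).filter
        (fun q : ℕ => q.Prime ∧ ((q : ℕ) : ZMod p) ^ ((p - 1) / l) ≠ 1), (1 : ℝ) / q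

end H693SR
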