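import Pool.Agent.H693.SR.ListP

/-!
# The number of the bad seeds
-/

set_option autoImplicit false

namespace H693SR

open Finset Pool.Agent Pool.Agent.NPC Pool.Agent.H595R2.PR Pool.Agent.R562.PR

/-- `ent` only depends on `u` modulo `r ^ K` -/
theorem t_M : S_M := by
  intro r K u a b hr
  unfold ent
  congr 1
  refine List.map_congr_left fun i hi => ?_
  rw [List.mem_range] at hi
  congr 1
  rw [Nat.add_mod, Nat.add_mod (u / r ^ i)]
  congr 2
  obtain ⟨d, rfl⟩ : ∃ d, K = i + 1 + d := ⟨K - (i + 1), by omega⟩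
  have h1 : u % r ^ (i + 1 + d) / r ^ i % r = u / r ^ i % r := by
    have h2 : ∀ v : ℕ, v / r ^ i % r = v % r ^ (i + 1) / r ^ i := by
      intro v
      rw [pow_succ, Nat.mod_mul_right_div_self]
    rw [h2, h2, Nat.mod_mod_of_dvd]
    exact pow_dvd_pow _ (by omega)
  exact h1

theorem mem_row {n Q r K u a b j : ℕ} (ha : a < Q) (hb : b < Q) (hj : j ≤ n) (hK : K ≤ n) :
    ent r K u a b / 2 ^ j ∈ row n Q r K u := by
  unfold row
  rw [List.mem_flatMap]
  refine ⟨a, List.mem_range.2 ha, ?_⟩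
  rw [List.mem_flatMap]
  refine ⟨b, List.mem_range.2 hb, ?_⟩
  rw [List.mem_map]
  refine ⟨j, List.mem_range.2 (by omega), ?_⟩
  rw [min_eq_left hK, min_eq_left hj]

theorem mem_seeds {D p r K u a b j : ℕ} (hr : r ≤ 2 * p.size ^ D) (ha : a < r) (hb : b < r)
    (hj : j ≤ p.size) (hK : K ≤ p.size) : ent r K u a b / 2 ^ j ∈ seeds D p u := by
  unfold seeds
  rw [List.mem_append]
  right
  rw [List.mem_flatMap]
  refine ⟨r, List.mem_range.2 (by omega), ?_⟩
  rw [List.mem_flatMap]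
  exact ⟨K, List.mem_range.2 (by omega), mem_row (by omega) (by omega) hj hK⟩

theorem small_mem {D p u i : ℕ} (hi : i ≤ p.size ^ D) : i ∈ seeds D p u := by
  unfold seeds
  rw [List.mem_append]
  left
  exact List.mem_cons_of_mem _ (List.mem_range.2 (by omega))

theorem neg_mem {D p u : ℕ} : p - 1 ∈ seeds D p u := by
  unfold seeds
  rw [List.mem_append]
  left
  exact List.mem_cons_self

open Classical in
/-- the numbers below `U` with a given set of residues modulo `M` -/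
theorem card_mod {M U : ℕ} (hMU : M ≤ U) (Z : Finset ℕ) :
    M * #((range U).filter (fun u => u % M ∈ Z)) ≤ 2 * U * #Z := by
  have h1 : #((range U).filter (fun u => u % M ∈ Z)) ≤ #((range (U / M + 1)) ×ˢ Z) := by
    refine card_le_card_of_injOn (fun u => (u / M, u % M)) ?_ ?_
    · intro u hu
      have hu' := mem_filter.1 (mem_coe.1 hu)
      rw [mem_coe, mem_product, mem_range]
      exact ⟨Nat.lt_succ_of_le (Nat.div_le_div_right (mem_range.1 hu'.1).le), hu'.2⟩
    · intro u _ v _ huv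
      simp only [Prod.mk.injEq] at huv
      rw [← Nat.div_add_mod u M, ← Nat.div_add_mod v M, huv.1, huv.2]
  rw [card_product, card_range] at h1
  calc M * #((range U).filter (fun u => u % M ∈ Z)) ≤ M * ((U / M + 1) * #Z) :=
        Nat.mul_le_mul_left _ h1
    _ = (M * (U / M) + M) * #Z := by ring
    _ ≤ (U + U) * #Z := Nat.mul_le_mul_right _ (Nat.add_le_add (Nat.mul_div_le _ _) hMU)
    _ = 2 * U * #Z := by ring

open Classical in
/-- the numbers below `2 ^ (i + j)` whose quotient by `2 ^ j` is in a set -/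
theorem card_shift (i j : ℕ) (N : Set ℕ) :
    #((range (2 ^ (i + j))).filter (fun y => y / 2 ^ j ∈ N)) =
      2 ^ j * #((range (2 ^ i)).filter (fun n => n ∈ N)) := by
  have h0 : 0 < 2 ^ j := by positivity
  have h1 : #((range (2 ^ (i + j))).filter (fun y => y / 2 ^ j ∈ N)) =
      #((range (2 ^ j)) ×ˢ ((range (2 ^ i)).filter (fun n => n ∈ N))) := by
    refine card_bij' (fun y _ => (y % 2 ^ j, y / 2 ^ j)) (fun q _ => 2 ^ j * q.2 + q.1) ?_ ?_ ?_ ?_
    · intro y hy
      rw [mem_filter, mem_range] at hy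
      rw [mem_product, mem_filter, mem_range, mem_range]
      refine ⟨Nat.mod_lt _ h0, ?_, hy.2⟩
      rw [Nat.div_lt_iff_lt_mul h0, ← pow_add]
      exact hy.1
    · intro q hq
      rw [mem_product, mem_filter, mem_range, mem_range] at hq
      obtain ⟨h2, h3, h4⟩ := hq
      rw [mem_filter, mem_range]
      have h5 : (2 ^ j * q.2 + q.1) / 2 ^ j = q.2 := by
        rw [Nat.mul_add_div h0, Nat.div_eq_of_lt h2, add_zero]
      refine ⟨?_, by rw [h5]; exact h4⟩
      calc 2 ^ j * q.2 + q.1 < 2 ^ j * q.2 + 2 ^ j := by omega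
        _ = 2 ^ j * (q.2 + 1) := by ring
        _ ≤ 2 ^ j * 2 ^ i := Nat.mul_le_mul_left _ h3
        _ = 2 ^ (i + j) := by rw [← pow_add, add_comm]
    · intro y _
      exact Nat.div_add_mod _ _
    · intro q hq
      rw [mem_product, mem_filter, mem_range, mem_range] at hq
      obtain ⟨h2, h3, h4⟩ := hq
      apply Prod.ext
      · show (2 ^ j * q.2 + q.1) % 2 ^ j = q.1
        rw [Nat.mul_add_mod, Nat.mod_eq_of_lt h2]
      · show (2 ^ j * q.2 + q.1) / 2 ^ j = q.2
        rw [Nat.mul_add_div h0, Nat.div_eq_of_lt h2, add_zero]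
  rw [h1, card_product, card_range]

/-- `x` is an `l`-th power residue modulo `p`, or divisible by `p` -/
def Res (p l x : ℕ) : Prop := (x : ZMod p) = 0 ∨ (x : ZMod p) ^ ((p - 1) / l) = 1

/-- all the numbers of the list of the seed `u` are `l`-th power residues -/
def Bad (D p l u : ℕ) : Prop := ∀ x ∈ seeds D p u, Res p l x

open Classical in
/-- the bad seeds for one prime `l` -/
theorem bad_one (hB : S_B) (hD : S_D) {D p l r U y : ℕ} [Fact p.Prime] (hr : r.Prime)
    (hr2 : r ≤ 2 * p.size ^ D) {c : ℝ} (hc0 : 0 < c) (hc1 : c ≤ 1) (hU1 : 1 ≤ U) (hU : U ≤ p)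
    (hy : (y : ℝ) * (64 * (p.size : ℝ) ^ D) ≤ c * U)
    (hs : c ≤ ∑ q ∈ (Icc 1 y).filter
        (fun q : ℕ => q.Prime ∧ ((q : ℕ) : ZMod p) ^ ((p - 1) / l) ≠ 1), (1 : ℝ) / q) :
    c * (r : ℝ) ^ 2 * #((range U).filter (fun u => Bad D p l u)) ≤
      32 * (p.size : ℝ) ^ 2 * U := by
  have hpp : p.Prime := Fact.out
  set K := Nat.log r U with hK
  set M := r ^ K with hM
  have hM1 : M ≤ U := Nat.pow_log_le_self r (by omega)
  have hM0 : 0 < M := Nat.pow_pos hr.pos
  have hM2 : U < M * r := by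
    rw [hM, ← pow_succ]
    exact Nat.lt_pow_succ_log_self hr.one_lt U
  set k := Nat.log 2 M with hk
  have hk1 : 2 ^ k ≤ M := Nat.pow_log_le_self 2 (by omega)
  have hk2 : M < 2 ^ (k + 1) := Nat.lt_pow_succ_log_self (by norm_num) M
  have hps : p < 2 ^ p.size := Nat.lt_size_self p
  have hkn : k ≤ p.size := by
    by_contra hc
    have h1 : 2 ^ p.size ≤ 2 ^ k := Nat.pow_le_pow_right (by norm_num) (by omega)
    omega
  have hKn : K ≤ p.size := by
    by_contra hc
    have h1 : 2 ^ p.size ≤ r ^ K :=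
      (Nat.pow_le_pow_right (by norm_num) (by omega : p.size ≤ K)).trans
        (Nat.pow_le_pow_left hr.two_le K)
    omega
  -- the set of the nonresidues
  obtain ⟨N, hN⟩ : ∃ N : Set ℕ, ∀ m, m ∈ N ↔ ¬ Res p l m := ⟨{m : ℕ | ¬ Res p l m}, fun _ => Iff.rfl⟩
  have hprime : ∀ q ∈ Icc 1 y, (q.Prime ∧ ((q : ℕ) : ZMod p) ^ ((p - 1) / l) ≠ 1) →
      (q.Prime ∧ q ∈ N) ∨ p ≤ q := by
    intro q hq hq2
    by_cases hqp : q < p
    · left
      refine ⟨hq2.1, (hN q).2 ?_⟩
      rintro (h1 | h1)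
      · rw [ZMod.natCast_eq_zero_iff] at h1
        have := Nat.le_of_dvd hq2.1.pos h1
        omega
      · exact hq2.2 h1
    · right; omega
  have hnr : (1 : ℝ) ≤ (p.size : ℝ) ^ D := by
    apply one_le_pow₀
    have : 0 < p.size := Nat.size_pos.2 hpp.pos
    exact_mod_cast this
  have hyU : (y : ℝ) < U := by
    have hU0 : (0 : ℝ) < U := by exact_mod_cast hU1
    have hy0 : (0 : ℝ) ≤ y := Nat.cast_nonneg _
    by_contra hcon
    push Not at hcon
    have h1 : (U : ℝ) * (64 * (p.size : ℝ) ^ D) ≤ c * U := by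
      refine le_trans ?_ hy
      exact mul_le_mul_of_nonneg_right hcon (by positivity)
    nlinarith
  have hyp : y < p := by
    have : y < U := by exact_mod_cast hyU
    omega
  have hs' : c ≤ ∑ q ∈ (Icc 1 y).filter (fun q : ℕ => q.Prime ∧ q ∈ N), (1 : ℝ) / q := by
    refine hs.trans (sum_le_sum_of_subset_of_nonneg ?_ fun _ _ _ => by positivity)
    intro q hq
    rw [mem_filter] at hq ⊢
    refine ⟨hq.1, ?_⟩
    rcases hprime q hq.1 hq.2 with h | h
    · exact h
    · have := (mem_Icc.1 hq.1).2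
      omega
  -- `y ≤ c 2 ^ k / 16`
  have hyk : (y : ℝ) ≤ c / 16 * 2 ^ k := by
    have h1 : (U : ℝ) ≤ 2 ^ k * (4 * (p.size : ℝ) ^ D) := by
      have h2 : U ≤ 2 ^ k * (4 * p.size ^ D) := by
        calc U ≤ M * r := hM2.le
          _ ≤ 2 ^ (k + 1) * (2 * p.size ^ D) := Nat.mul_le_mul hk2.le hr2
          _ = 2 ^ k * (4 * p.size ^ D) := by ring
      exact_mod_cast h2
    have h3 : (y : ℝ) * (64 * (p.size : ℝ) ^ D) ≤ (c / 16 * 2 ^ k) * (64 * (p.size : ℝ) ^ D) := by
      calc (y : ℝ) * (64 * (p.size : ℝ) ^ D) ≤ c * U := hy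
        _ ≤ c * (2 ^ k * (4 * (p.size : ℝ) ^ D)) := mul_le_mul_of_nonneg_left h1 hc0.le
        _ = (c / 16 * 2 ^ k) * (64 * (p.size : ℝ) ^ D) := by ring
    exact le_of_mul_le_mul_right h3 (by positivity)
  obtain ⟨i, hik, hi⟩ := hB c k y N hc0 hc1 hyk (by
    intro q m hq hqN hm hmN hlt
    have hmR : Res p l m := not_not.1 fun h => hmN ((hN m).2 h)
    have hqN' := (hN q).1 hqN
    refine (hN (q * m)).2 ?_
    have hm0 : (m : ZMod p) ≠ 0 := by
      intro h1
      rw [ZMod.natCast_eq_zero_iff] at h1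
      have h2 := Nat.le_of_dvd (by omega) h1
      have h3 : m ≤ q * m := Nat.le_mul_of_pos_left _ hq.pos
      omega
    have hm1 : (m : ZMod p) ^ ((p - 1) / l) = 1 := by
      rcases hmR with h | h
      · exact absurd h hm0
      · exact h
    rintro (h | h)
    · apply hqN'
      left
      rw [Nat.cast_mul] at h
      rcases mul_eq_zero.1 h with h' | h'
      · exact h'
      · exact absurd h' hm0
    · apply hqN'
      right
      rw [Nat.cast_mul, mul_pow, hm1, mul_one] at h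
      exact h) hs'
  obtain ⟨j, hj⟩ : ∃ j, k = i + j := ⟨k - i, by omega⟩
  set Cs : Finset ℕ := (range M).filter (fun y => y / 2 ^ j ∈ N) with hCs
  have hCcard : c / 16 * M ≤ (#Cs : ℝ) := by
    have h1 : (range (2 ^ (i + j))).filter (fun y => y / 2 ^ j ∈ N) ⊆ Cs := by
      intro x hx
      rw [mem_filter, mem_range] at hx
      rw [hCs, mem_filter, mem_range]
      exact ⟨lt_of_lt_of_le hx.1 (by rw [← hj]; exact hk1), hx.2⟩
    have h2 := card_le_card h1
    rw [card_shift] at h2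
    have h3 : ((2 ^ j * #((range (2 ^ i)).filter (fun n => n ∈ N)) : ℕ) : ℝ) ≤ (#Cs : ℝ) := by
      exact_mod_cast h2
    push_cast at h3
    have h4 : (M : ℝ) ≤ 2 * (2 ^ i * 2 ^ j) := by
      have h5 : M ≤ 2 * (2 ^ i * 2 ^ j) := by
        rw [← pow_add, ← hj]
        rw [pow_succ] at hk2
        omega
      exact_mod_cast h5
    calc c / 16 * M ≤ c / 16 * (2 * (2 ^ i * 2 ^ j)) :=
          mul_le_mul_of_nonneg_left h4 (by positivity)
      _ = 2 ^ j * (c / 8 * 2 ^ i) := by ring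
      _ ≤ 2 ^ j * (#((range (2 ^ i)).filter (fun n => n ∈ N)) : ℝ) :=
          mul_le_mul_of_nonneg_left hi (by positivity)
      _ ≤ (#Cs : ℝ) := h3
  set Z : Finset ℕ := (range M).filter (fun u => ∀ a < r, ∀ b < r, ent r K u a b ∉ Cs) with hZ
  have hZC := hD r hr K Cs (filter_subset _ _)
  have hsub : (range U).filter (fun u => Bad D p l u) ⊆
      (range U).filter (fun u => u % M ∈ Z) := by
    intro u hu
    rw [mem_filter] at hu ⊢
    refine ⟨hu.1, ?_⟩
    rw [hZ, mem_filter, mem_range]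
    refine ⟨Nat.mod_lt _ hM0, fun a ha b hb hmem => ?_⟩
    rw [hM, t_M r K u a b hr.pos] at hmem
    rw [hCs, mem_filter] at hmem
    exact (hN _).1 hmem.2 (hu.2 _ (mem_seeds hr2 ha hb (by omega) hKn))
  have h1 := card_le_card hsub
  have h2 := card_mod hM1 Z
  -- real numbers
  have h2r : (M : ℝ) * #((range U).filter (fun u => Bad D p l u)) ≤
      2 * U * #Z := by
    have : M * #((range U).filter (fun u => Bad D p l u)) ≤ 2 * U * #Z :=
      (Nat.mul_le_mul_left _ h1).trans h2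
    exact_mod_cast this
  have h3r : (#Z : ℝ) * #Cs * (r : ℝ) ^ 2 ≤ (K : ℝ) ^ 2 * (M : ℝ) ^ 2 := by
    exact_mod_cast hZC
  have hM0r : (0 : ℝ) < M := by exact_mod_cast hM0
  have h4r : c * (r : ℝ) ^ 2 * #Z ≤ 16 * (K : ℝ) ^ 2 * M := by
    have h5 : (c * (r : ℝ) ^ 2 * #Z) * M ≤ (16 * (K : ℝ) ^ 2 * M) * M := by
      calc (c * (r : ℝ) ^ 2 * #Z) * M = 16 * (#Z * (c / 16 * M) * (r : ℝ) ^ 2) := by ring
        _ ≤ 16 * (#Z * #Cs * (r : ℝ) ^ 2) := by gcongr
        _ ≤ 16 * ((K : ℝ) ^ 2 * (M : ℝ) ^ 2) := by linarith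
        _ = (16 * (K : ℝ) ^ 2 * M) * M := by ring
    exact le_of_mul_le_mul_right h5 hM0r
  have hKr : (K : ℝ) ^ 2 ≤ (p.size : ℝ) ^ 2 := by
    have : (K : ℝ) ≤ p.size := by exact_mod_cast hKn
    gcongr
  set bd : ℝ := (#((range U).filter (fun u => Bad D p l u)) : ℝ) with hbd
  have h6 : (c * (r : ℝ) ^ 2 * bd) * M ≤ (32 * (p.size : ℝ) ^ 2 * U) * M := by
    calc (c * (r : ℝ) ^ 2 * bd) * M = c * (r : ℝ) ^ 2 * (M * bd) := by ring
      _ ≤ c * (r : ℝ) ^ 2 * (2 * U * #Z) := mul_le_mul_of_nonneg_left h2r (by positivity)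
      _ = 2 * U * (c * (r : ℝ) ^ 2 * #Z) := by ring
      _ ≤ 2 * U * (16 * (K : ℝ) ^ 2 * M) := mul_le_mul_of_nonneg_left h4r (by positivity)
      _ = 32 * (K : ℝ) ^ 2 * U * M := by ring
      _ ≤ (32 * (p.size : ℝ) ^ 2 * U) * M := by gcongr
  exact le_of_mul_le_mul_right h6 hM0r

end H693SR
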