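import Pool.Graph.R_pool_sql_team_seeded_3997aac3.Q265.PR.E
import Pool.Agent.H693.SR.Main

/-!
# Primitive roots modulo every prime from few random bits: assembly
-/

set_option autoImplicit false

namespace H693SR

open Finset Pool.Agent Pool.Agent.NPC Pool.Agent.H595R2.PR Pool.Agent.R562.PR

/-- one of `-1, 1, 2, …, (size p) ^ D` is not an `l`-th power modulo `p` -/
def SmallNon (p D l : ℕ) : Prop :=
  ∃ x : ZMod p, (x = -1 ∨ ∃ i : ℕ, 1 ≤ i ∧ i ≤ p.size ^ D ∧ x = i) ∧ ¬ ∃ c : ZMod p, c ^ l = x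

open Classical in
/-- few seeds are bad -/
theorem few_bad (hB : S_B) (hD : S_D) {B p U y : ℕ} [Fact p.Prime] {c : ℝ} (hc0 : 0 < c)
    (hc1 : c ≤ 1) (hn : 32 ≤ c * p.size) (hU1 : 1 ≤ U) (hU : U ≤ p)
    (hy : (y : ℝ) * (64 * (p.size : ℝ) ^ (B + 2)) ≤ c * U)
    (hl : ∀ l : ℕ, l.Prime → l ∣ p - 1 → SmallNon p (B + 2) l ∨
      c ≤ ∑ q ∈ (Icc 1 y).filter
        (fun q : ℕ => q.Prime ∧ ((q : ℕ) : ZMod p) ^ ((p - 1) / l) ≠ 1), (1 : ℝ) / q) :
    p.size ^ B * #{u ∈ range U | listGroup p (seeds (B + 2) p u) ≠ ⊤} ≤ U := by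
  have hpp : p.Prime := Fact.out
  have hn0 : 0 < p.size := Nat.size_pos.2 hpp.pos
  have hnr : (0 : ℝ) < p.size := by exact_mod_cast hn0
  obtain ⟨r, hr, hr1, hr2⟩ := Nat.exists_prime_lt_and_le_two_mul (p.size ^ (B + 2))
    (by positivity)
  set F : ℕ → Finset ℕ := fun l => (range U).filter (fun u => Bad (B + 2) p l u) with hF
  have h1 : {u ∈ range U | listGroup p (seeds (B + 2) p u) ≠ ⊤} ⊆
      (p - 1).primeFactors.biUnion F := by
    intro u hu
    rw [mem_filter] at hu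
    obtain ⟨l, hl1, hd, h⟩ := exists_allRes hu.2
    rw [mem_biUnion]
    refine ⟨l, ?_, ?_⟩
    · rw [Nat.mem_primeFactors]
      exact ⟨hl1, hd, by have := hpp.one_lt; omega⟩
    · rw [hF, mem_filter]
      exact ⟨hu.1, h⟩
  have h2 : ∀ l ∈ (p - 1).primeFactors,
      c * (r : ℝ) ^ 2 * #(F l) ≤ 32 * (p.size : ℝ) ^ 2 * U := by
    intro l hlm
    rw [Nat.mem_primeFactors] at hlm
    rcases hl l hlm.1 hlm.2.1 with h | h
    · -- a small nonresidue
      have he : F l = ∅ := by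
        rw [hF, filter_eq_empty_iff]
        intro u _ hall
        obtain ⟨x, hx, hno⟩ := h
        have key : ∀ m ∈ seeds (B + 2) p u, (m : ZMod p) = x → x ≠ 0 → False := by
          intro m hm hmx hx0
          rcases hall m hm with h3 | h3
          · exact hx0 (hmx ▸ h3)
          · rw [hmx] at h3
            obtain ⟨c', -, hc'⟩ := Pool.Agent.Q265.PR.root_of p l hlm.1 hlm.2.1 x h3
            exact hno ⟨c', hc'⟩
        have hx0 : x ≠ 0 := by
          rintro rfl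
          exact hno ⟨0, zero_pow hlm.1.ne_zero⟩
        rcases hx with rfl | ⟨i, _, hi2, rfl⟩
        · refine key (p - 1) neg_mem ?_ hx0
          rw [Nat.cast_sub hpp.one_lt.le, Nat.cast_one, ZMod.natCast_self, zero_sub]
        · exact key i (small_mem hi2) rfl hx0
      rw [he, card_empty]
      simp only [Nat.cast_zero, mul_zero]
      positivity
    · exact bad_one hB hD hr hr2 hc0 hc1 hU1 hU hy h
  have h3 : c * (r : ℝ) ^ 2 * #{u ∈ range U | listGroup p (seeds (B + 2) p u) ≠ ⊤} ≤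
      p.size * (32 * (p.size : ℝ) ^ 2 * U) := by
    have h4 : (#{u ∈ range U | listGroup p (seeds (B + 2) p u) ≠ ⊤} : ℝ) ≤
        ∑ l ∈ (p - 1).primeFactors, (#(F l) : ℝ) := by
      exact_mod_cast (card_le_card h1).trans card_biUnion_le
    have hcr : (0 : ℝ) ≤ c * (r : ℝ) ^ 2 := by positivity
    calc c * (r : ℝ) ^ 2 * #{u ∈ range U | listGroup p (seeds (B + 2) p u) ≠ ⊤}
        ≤ c * (r : ℝ) ^ 2 * ∑ l ∈ (p - 1).primeFactors, (#(F l) : ℝ) :=
          mul_le_mul_of_nonneg_left h4 hcr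
      _ = ∑ l ∈ (p - 1).primeFactors, c * (r : ℝ) ^ 2 * #(F l) := by rw [mul_sum]
      _ ≤ ∑ _l ∈ (p - 1).primeFactors, 32 * (p.size : ℝ) ^ 2 * U := sum_le_sum h2
      _ = #(p - 1).primeFactors * (32 * (p.size : ℝ) ^ 2 * U) := by
          rw [sum_const, nsmul_eq_mul]
      _ ≤ p.size * (32 * (p.size : ℝ) ^ 2 * U) := by
          have h5 : ((#(p - 1).primeFactors : ℕ) : ℝ) ≤ p.size := by
            exact_mod_cast card_primeFactors_sub_one (p := p)
          exact mul_le_mul_of_nonneg_right h5 (by positivity)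
  set bd : ℝ := (#{u ∈ range U | listGroup p (seeds (B + 2) p u) ≠ ⊤} : ℝ) with hbd
  have hbd0 : 0 ≤ bd := Nat.cast_nonneg _
  have hrr : (p.size : ℝ) ^ (2 * B + 4) ≤ (r : ℝ) ^ 2 := by
    have h5 : ((p.size : ℝ) ^ (B + 2)) ≤ r := by exact_mod_cast hr1.le
    calc (p.size : ℝ) ^ (2 * B + 4) = ((p.size : ℝ) ^ (B + 2)) ^ 2 := by
          rw [← pow_mul]; congr 1; ring
      _ ≤ (r : ℝ) ^ 2 := by gcongr
  have hU0 : (0 : ℝ) ≤ U := Nat.cast_nonneg _
  have h6 : (p.size : ℝ) ^ (2 * B) * bd ≤ U := by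
    have h7 : (c * (p.size : ℝ) ^ 4) * ((p.size : ℝ) ^ (2 * B) * bd) ≤ (c * (p.size : ℝ) ^ 4) * U := by
      calc (c * (p.size : ℝ) ^ 4) * ((p.size : ℝ) ^ (2 * B) * bd)
          = c * (p.size : ℝ) ^ (2 * B + 4) * bd := by ring
        _ ≤ c * (r : ℝ) ^ 2 * bd := by gcongr
        _ ≤ p.size * (32 * (p.size : ℝ) ^ 2 * U) := h3
        _ = 32 * ((p.size : ℝ) ^ 3 * U) := by ring
        _ ≤ (c * p.size) * ((p.size : ℝ) ^ 3 * U) := mul_le_mul_of_nonneg_right hn (by positivity)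
        _ = (c * (p.size : ℝ) ^ 4) * U := by ring
    exact le_of_mul_le_mul_left h7 (by positivity)
  have h8 : (p.size : ℝ) ^ B * bd ≤ U := by
    refine le_trans (mul_le_mul_of_nonneg_right ?_ hbd0) h6
    exact pow_le_pow_right₀ (by exact_mod_cast hn0) (by omega)
  have h9 : ((p.size ^ B * #{u ∈ range U | listGroup p (seeds (B + 2) p u) ≠ ⊤} : ℕ) : ℝ) ≤
      (U : ℝ) := by
    rw [Nat.cast_mul, Nat.cast_pow]
    exact h8
  exact Nat.cast_le.1 h9

open Classical in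
/-- all but a fraction `(size p) ^ (-B)` of the entries of the list `s` are primitive roots
modulo `p` -/
def Mostly (B p : ℕ) (s : List ℕ) : Prop :=
  p.size ^ B * #{i ∈ range s.length | ¬ IsPrimRoot p (s.getD i 0)} ≤ s.length

/-- the algorithm -/
def alg (B p u : ℕ) : List ℕ := candsS (3 * (B + 2) + 4 + 0 + B + 2) p (seeds (B + 2) p u)

theorem poly_alg (B : ℕ) : PolyTimeList₂ (alg B) := by
  refine polyTimeList₂_of ?_
  exact Pool.Agent.NPC.R562POL.poly_candsS _ (NPC.Poly.fst NPC.Poly.id) (poly_seeds (B + 2))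

theorem length_alg (B p u : ℕ) : (alg B p u).length = p.size ^ (3 * (B + 2) + 4 + 0 + B + 2) :=
  length_candsS _ _ _

open Classical in
/-- a seed for which the list generates the group is good -/
theorem mostly_of {B p u : ℕ} [Fact p.Prime] (hn : 16 ≤ p.size)
    (htop : listGroup p (seeds (B + 2) p u) = ⊤) : Mostly B p (alg B p u) := by
  have hpp : p.Prime := Fact.out
  unfold Mostly
  rw [length_alg]
  have h3 := coreS (3 * (B + 2) + 4 + 0 + B + 2) p hpp (seeds (B + 2) p u)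
  have hl := length_seeds (B + 2) p u hn
  have h4 := fits (n := p.size) (A := 3 * (B + 2) + 4) (A' := 0) (B := B)
    (L := (seeds (B + 2) p u).length) (by omega) (hl.trans (Nat.le_add_right _ _)) h3
  refine le_trans (Nat.mul_le_mul_left _ (card_le_card ?_)) h4
  intro i hi
  rw [mem_filter] at hi ⊢
  refine ⟨hi.1, fun hg => hi.2 ?_⟩
  rw [genS_iff, htop] at hg
  exact prim_of_generates hg

open Classical in
/-- all but a fraction `(size p) ^ (-B)` of the seeds `u < U` are good -/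
def Few (B p U : ℕ) : Prop := p.size ^ B * #{u ∈ range U | ¬ Mostly B p (alg B p u)} ≤ U

theorem few_of {B p U : ℕ} [Fact p.Prime] (hn : 16 ≤ p.size)
    (h : open Classical in p.size ^ B * #{u ∈ range U | listGroup p (seeds (B + 2) p u) ≠ ⊤} ≤ U) :
    Few B p U := by
  classical
  unfold Few
  refine le_trans (Nat.mul_le_mul_left _ (card_le_card ?_)) h
  intro u hu
  rw [mem_filter] at hu ⊢
  exact ⟨hu.1, fun htop => hu.2 (mostly_of hn htop)⟩

/-- from the density of the nonresidues to the seeds, for one exponent `θ` -/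
theorem few_theta (hB : S_B) (hD : S_D) (B : ℕ) (ε : ℝ) (hε : 0 < ε) (c : ℝ) (hc0 : 0 < c) :
    ∃ p₀ : ℕ, ∀ p : ℕ, p₀ ≤ p → p.Prime → ∀ θ : ℝ, 0 ≤ θ → ∀ U : ℕ, U ≤ p →
      (p : ℝ) ^ (θ + ε) ≤ U →
      (∀ l : ℕ, l.Prime → l ∣ p - 1 → SmallNon p (B + 2) l ∨
        c ≤ ∑ q ∈ (Icc 1 ⌊(p : ℝ) ^ (θ + ε / 2)⌋₊).filter
          (fun q : ℕ => q.Prime ∧ ((q : ℕ) : ZMod p) ^ ((p - 1) / l) ≠ 1), (1 : ℝ) / q) →
      Few B p U := by
  set c' : ℝ := min c 1 with hc'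
  have hc'0 : 0 < c' := lt_min hc0 one_pos
  have hc'1 : c' ≤ 1 := min_le_right _ _
  have hc'c : c' ≤ c := min_le_left _ _
  obtain ⟨m, hm⟩ := exists_nat_gt (64 / c')
  obtain ⟨p₁, hp₁⟩ := Pool.Agent.Q265.PR.E.size_le_rpow (ε / 2 / (B + 3)) (by positivity)
  refine ⟨max p₁ (2 ^ (m + 16)), fun p hp hpp θ hθ U hU hpU hl => ?_⟩
  have : Fact p.Prime := ⟨hpp⟩
  have hsz : m + 16 < p.size := Nat.lt_size.2 ((le_max_right _ _).trans hp)
  have hszr : (m : ℝ) ≤ p.size := by exact_mod_cast (by omega : m ≤ p.size)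
  have h64 : 64 ≤ c' * p.size := by
    rw [div_lt_iff₀ hc'0] at hm
    nlinarith
  have hp1 : (1 : ℝ) ≤ p := by exact_mod_cast hpp.one_lt.le
  have hp0 : (0 : ℝ) < p := by linarith
  have hpow : (p.size : ℝ) ^ (B + 3) ≤ (p : ℝ) ^ (ε / 2) := by
    have h1 : (p.size : ℝ) ≤ (p : ℝ) ^ (ε / 2 / (B + 3)) := by
      have := hp₁ p ((le_max_left _ _).trans hp)
      linarith
    calc (p.size : ℝ) ^ (B + 3) ≤ ((p : ℝ) ^ (ε / 2 / (B + 3))) ^ (B + 3) := by gcongr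
      _ = (p : ℝ) ^ (ε / 2) := by
          rw [← Real.rpow_natCast, ← Real.rpow_mul hp0.le]
          congr 1
          push_cast
          field_simp
  have hUr : (1 : ℝ) ≤ U := (Real.one_le_rpow hp1 (by positivity)).trans hpU
  have hU1 : 1 ≤ U := by exact_mod_cast hUr
  refine few_of (by omega) (few_bad hB hD (c := c') (y := ⌊(p : ℝ) ^ (θ + ε / 2)⌋₊) hc'0 hc'1
    (by linarith) hU1 hU ?_ fun l hl1 hl2 => (hl l hl1 hl2).imp_right hc'c.trans)
  have h2 : ((⌊(p : ℝ) ^ (θ + ε / 2)⌋₊ : ℕ) : ℝ) ≤ (p : ℝ) ^ (θ + ε / 2) :=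
    Nat.floor_le (by positivity)
  calc ((⌊(p : ℝ) ^ (θ + ε / 2)⌋₊ : ℕ) : ℝ) * (64 * (p.size : ℝ) ^ (B + 2))
      ≤ (p : ℝ) ^ (θ + ε / 2) * ((c' * p.size) * (p.size : ℝ) ^ (B + 2)) := by gcongr
    _ = c' * ((p : ℝ) ^ (θ + ε / 2) * (p.size : ℝ) ^ (B + 3)) := by ring
    _ ≤ c' * ((p : ℝ) ^ (θ + ε / 2) * (p : ℝ) ^ (ε / 2)) := by gcongr
    _ = c' * (p : ℝ) ^ (θ + ε) := by
        rw [← Real.rpow_add hp0]
        congr 2
        ring
    _ ≤ c' * U := mul_le_mul_of_nonneg_left hpU hc'0.le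

/-- the theorem with the parameter `L` -/
theorem main_L (hB : S_B) (hD : S_D) (hA : S_A) (B L : ℕ) (hL : 2 ≤ L) (ε : ℝ) (hε : 0 < ε) :
    ∃ p₀ : ℕ, ∀ p : ℕ, p₀ ≤ p → p.Prime →
      (∀ l : ℕ, l.Prime → l < L → l ∣ p - 1 → SmallNon p (B + 2) l) → ∀ U : ℕ, U ≤ p →
      (p : ℝ) ^ (1 / (4 * Real.exp (1 - 1 / (L : ℝ))) + ε) ≤ U → Few B p U := by
  obtain ⟨c, p₁, hc0, h1⟩ := hA L hL (ε / 2) (by positivity)
  obtain ⟨p₂, h2⟩ := few_theta hB hD B ε hε c hc0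
  refine ⟨max p₁ p₂, fun p hp hpp hsm U hU hpU => ?_⟩
  refine h2 p ((le_max_right _ _).trans hp) hpp _ (by positivity) U hU hpU fun l hl hd => ?_
  rcases lt_or_ge l L with h | h
  · exact Or.inl (hsm l hl h hd)
  · exact Or.inr (h1 p ((le_max_left _ _).trans hp) hpp l hl h hd)

/-- the theorem for all positive exponents -/
theorem main_K (hB : S_B) (hD : S_D) (hK : S_K) (B : ℕ) (ε : ℝ) (hε : 0 < ε) :
    ∃ K p₀ : ℕ, ∀ p : ℕ, p₀ ≤ p → p.Prime →
      (∀ l : ℕ, l.Prime → l < K → l ∣ p - 1 → SmallNon p (B + 2) l) → ∀ U : ℕ, U ≤ p →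
      (p : ℝ) ^ ε ≤ U → Few B p U := by
  obtain ⟨c, K, p₁, hc0, h1⟩ := hK (ε / 2) (by positivity)
  obtain ⟨p₂, h2⟩ := few_theta hB hD B ε hε c hc0
  refine ⟨K, max p₁ p₂, fun p hp hpp hsm U hU hpU => ?_⟩
  refine h2 p ((le_max_right _ _).trans hp) hpp 0 le_rfl U hU (by rwa [zero_add]) fun l hl hd => ?_
  rcases lt_or_ge l K with h | h
  · exact Or.inl (hsm l hl h hd)
  · right
    rw [zero_add]
    exact h1 p ((le_max_left _ _).trans hp) hpp l hl h hd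

end H693SR
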