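import Pool.Graph.R_pool_sql_team_seeded_b0a926ef.R562.PR.OneRes
import Pool.Graph.R_seed8.H687R2.IntPoly
import Pool.Agent.H693.SR.Stm

/-!
# The list of the shifted seeds, and that it is computable in polynomial time
-/

set_option autoImplicit false

namespace H693SR

open Pool.Agent Pool.Agent.NPC Pool.Agent.H595R2.PR Pool.Agent.NPC.H595POL Pool.Agent.NPC.R562POL
  Pool.Agent.R562.PR

section

variable {α : Type} [TEnc α]

theorem ent_eq_min (r K u a b : ℕ) : ent r K u a b =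
    ((List.range K).map fun i =>
      ((u / r ^ (min i K) + b * a ^ (min i K)) % r) * r ^ (min i K)).sum := by
  unfold ent
  congr 1
  refine List.map_congr_left fun i hi => ?_
  rw [List.mem_range] at hi
  rw [min_eq_left hi.le]

theorem poly_ent {r K u a b : α → ℕ} (hr : NPC.Poly r) (hK : UPoly K) (hu : NPC.Poly u) (ha : NPC.Poly a)
    (hb : NPC.Poly b) : NPC.Poly (fun x => ent (r x) (K x) (u x) (a x) (b x)) := by
  refine NPC.Poly.congr ?_ fun x => (ent_eq_min _ _ _ _ _).symm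
  refine NPC.Poly.sum ?_
  refine NPC.Poly.map (l := fun x => List.range (K x)) (F := fun x i =>
      ((u x / r x ^ (min i (K x)) + b x * a x ^ (min i (K x))) % r x) * r x ^ (min i (K x)))
    hK.range ?_
  have f1 : NPC.Poly (fun q : α × ℕ => r q.1) := hr.comp (NPC.Poly.fst NPC.Poly.id)
  have f2 : NPC.Poly (fun q : α × ℕ => u q.1) := hu.comp (NPC.Poly.fst NPC.Poly.id)
  have f3 : NPC.Poly (fun q : α × ℕ => a q.1) := ha.comp (NPC.Poly.fst NPC.Poly.id)
  have f4 : NPC.Poly (fun q : α × ℕ => b q.1) := hb.comp (NPC.Poly.fst NPC.Poly.id)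
  have f5 : UPoly (fun q : α × ℕ => K q.1) := hK.comp (NPC.Poly.fst NPC.Poly.id)
  have f6 : UPoly (fun q : α × ℕ => min q.2 (K q.1)) :=
    UPoly.of_le (NPC.Poly.min (NPC.Poly.snd NPC.Poly.id) f5.toPoly) f5 fun _ => min_le_right _ _
  exact NPC.Poly.mul (NPC.Poly.mod (NPC.Poly.add (NPC.Poly.div f2 (NPC.Poly.npow f1 f6))
    (NPC.Poly.mul f4 (NPC.Poly.npow f3 f6))) f1) (NPC.Poly.npow f1 f6)

end

/-- the entries with `a`, `b`, `j` free -/
def row (n Q r K u : ℕ) : List ℕ :=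
  (List.range Q).flatMap fun a => (List.range Q).flatMap fun b => (List.range (n + 1)).map fun j =>
    ent r (min K n) u a b / 2 ^ (min j n)

/-- the list of numbers attached to the prime `p` and the seed `u`: `-1`, the small numbers, and the
numbers obtained from `u` by adding small multiples of `(1, a, a ^ 2, …)` to its digits in base `r`,
divided by the powers of two -/
def seeds (D p u : ℕ) : List ℕ :=
  ((p - 1) :: List.range (p.size ^ D + 1)) ++
    (List.range (2 * p.size ^ D + 1)).flatMap fun r => (List.range (p.size + 1)).flatMap fun K =>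
      row p.size (2 * p.size ^ D) r K u

theorem poly_row {α : Type} [TEnc α] {n Q r K u : α → ℕ} (hn : UPoly n) (hQ : UPoly Q) (hr : NPC.Poly r)
    (hK : NPC.Poly K) (hu : NPC.Poly u) : NPC.Poly (fun x => row (n x) (Q x) (r x) (K x) (u x)) := by
  have g1 : ∀ {γ : Type} [TEnc γ] {f : γ → α}, NPC.Poly f → UPoly (fun y => min (K (f y)) (n (f y))) := by
    intro γ _ f hf
    have h1 : UPoly (fun y => n (f y)) := hn.comp hf
    exact UPoly.of_le (NPC.Poly.min (hK.comp hf) h1.toPoly) h1 fun _ => min_le_right _ _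
  unfold row
  refine NPC.Poly.flatMap (l := fun x => List.range (Q x)) (F := fun x a =>
    (List.range (Q x)).flatMap fun b => (List.range (n x + 1)).map fun j =>
      ent (r x) (min (K x) (n x)) (u x) a b / 2 ^ (min j (n x))) hQ.range ?_
  refine NPC.Poly.flatMap (l := fun q : α × ℕ => List.range (Q q.1)) (F := fun q b =>
    (List.range (n q.1 + 1)).map fun j =>
      ent (r q.1) (min (K q.1) (n q.1)) (u q.1) q.2 b / 2 ^ (min j (n q.1)))
    ((hQ.comp (NPC.Poly.fst NPC.Poly.id)).range) ?_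
  refine NPC.Poly.map (l := fun q : (α × ℕ) × ℕ => List.range (n q.1.1 + 1)) (F := fun q j =>
      ent (r q.1.1) (min (K q.1.1) (n q.1.1)) (u q.1.1) q.1.2 q.2 / 2 ^ (min j (n q.1.1)))
    ((UPoly.add (hn.comp (NPC.Poly.fst (NPC.Poly.fst NPC.Poly.id))) (UPoly.const 1)).range) ?_
  have f0 : NPC.Poly (fun q : ((α × ℕ) × ℕ) × ℕ => q.1.1.1) := NPC.Poly.fst (NPC.Poly.fst (NPC.Poly.fst NPC.Poly.id))
  have f1 : UPoly (fun q : ((α × ℕ) × ℕ) × ℕ => n q.1.1.1) := hn.comp f0
  have f2 : UPoly (fun q : ((α × ℕ) × ℕ) × ℕ => min q.2 (n q.1.1.1)) :=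
    UPoly.of_le (NPC.Poly.min (NPC.Poly.snd NPC.Poly.id) f1.toPoly) f1 fun _ => min_le_right _ _
  refine NPC.Poly.div (poly_ent (hr.comp f0) (g1 f0) (hu.comp f0)
    (NPC.Poly.snd (NPC.Poly.fst (NPC.Poly.fst NPC.Poly.id))) (NPC.Poly.snd (NPC.Poly.fst NPC.Poly.id))) ?_
  exact NPC.Poly.npow (NPC.Poly.const 2) f2

theorem poly_seeds (D : ℕ) : NPC.Poly (fun q : ℕ × ℕ => seeds D q.1 q.2) := by
  unfold seeds
  have hp : NPC.Poly (fun q : ℕ × ℕ => q.1) := NPC.Poly.fst NPC.Poly.id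
  have hsz : UPoly (fun q : ℕ × ℕ => q.1.size) := upoly_size.comp hp
  have hsD : UPoly (fun q : ℕ × ℕ => q.1.size ^ D) := (upoly_sizepow D).comp hp
  have h2D : UPoly (fun q : ℕ × ℕ => 2 * q.1.size ^ D) := UPoly.mul (UPoly.const 2) hsD
  refine NPC.Poly.append (NPC.Poly.cons (NPC.Poly.sub hp (NPC.Poly.const 1)) (UPoly.add hsD (UPoly.const 1)).range) ?_
  refine NPC.Poly.flatMap (l := fun q : ℕ × ℕ => List.range (2 * q.1.size ^ D + 1)) (F := fun q r =>
    (List.range (q.1.size + 1)).flatMap fun K => row q.1.size (2 * q.1.size ^ D) r K q.2)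
    (UPoly.add h2D (UPoly.const 1)).range ?_
  refine NPC.Poly.flatMap (l := fun q : (ℕ × ℕ) × ℕ => List.range (q.1.1.size + 1)) (F := fun q K =>
    row q.1.1.size (2 * q.1.1.size ^ D) q.2 K q.1.2)
    ((UPoly.add (hsz.comp (NPC.Poly.fst NPC.Poly.id)) (UPoly.const 1)).range) ?_
  have f0 : NPC.Poly (fun q : ((ℕ × ℕ) × ℕ) × ℕ => q.1.1) := NPC.Poly.fst (NPC.Poly.fst NPC.Poly.id)
  exact poly_row (hsz.comp f0) (h2D.comp f0) (NPC.Poly.snd (NPC.Poly.fst NPC.Poly.id)) (NPC.Poly.snd NPC.Poly.id)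
    (NPC.Poly.snd f0)

theorem length_flatMap_le {α β : Type} (l : List α) (f : α → List β) (m : ℕ)
    (h : ∀ a ∈ l, (f a).length ≤ m) : (l.flatMap f).length ≤ l.length * m := by
  induction l with
  | nil => simp
  | cons a l ih =>
    rw [List.flatMap_cons, List.length_append, List.length_cons, Nat.succ_mul, add_comm]
    exact Nat.add_le_add (ih fun b hb => h b (List.mem_cons_of_mem _ hb)) (h a List.mem_cons_self)

/-- the length of the list -/
theorem length_seeds (D p u : ℕ) (hn : 16 ≤ p.size) : (seeds D p u).length ≤ p.size ^ (3 * D + 4) := by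
  set n := p.size with hndef
  have h1 : ∀ r K : ℕ, (row n (2 * n ^ D) r K u).length ≤ (2 * n ^ D) * ((2 * n ^ D) * (n + 1)) := by
    intro r K
    unfold row
    refine (length_flatMap_le _ _ ((2 * n ^ D) * (n + 1)) fun a _ => ?_).trans (by
      rw [List.length_range])
    refine (length_flatMap_le _ _ (n + 1) fun b _ => ?_).trans (by rw [List.length_range])
    simp
  have h2 : (seeds D p u).length ≤ (n ^ D + 2) + (2 * n ^ D + 1) *
      ((n + 1) * ((2 * n ^ D) * ((2 * n ^ D) * (n + 1)))) := by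
    unfold seeds
    rw [List.length_append]
    refine Nat.add_le_add (by rw [List.length_cons, List.length_range]) ?_
    refine (length_flatMap_le _ _ ((n + 1) * ((2 * n ^ D) * ((2 * n ^ D) * (n + 1))))
      fun r _ => ?_).trans (by rw [List.length_range])
    refine (length_flatMap_le _ _ ((2 * n ^ D) * ((2 * n ^ D) * (n + 1))) fun K _ => h1 r K).trans
      (by rw [List.length_range])
  refine h2.trans ?_
  have hM : 1 ≤ n ^ D := Nat.one_le_pow _ _ (by omega)
  have e : n ^ (3 * D + 4) = (n ^ D) ^ 3 * n ^ 4 := by rw [pow_add, mul_comm 3 D, pow_mul]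
  rw [e]
  generalize n ^ D = M at hM
  have a1 : M ≤ M ^ 3 := by
    calc M = M ^ 1 := (pow_one M).symm
      _ ≤ M ^ 3 := Nat.pow_le_pow_right hM (by norm_num)
  have a2 : 1 ≤ M ^ 3 := Nat.one_le_pow _ _ hM
  have a3 : (n + 1) * (n + 1) ≤ 2 * n ^ 2 := by nlinarith
  have a4 : 256 ≤ n ^ 2 := by nlinarith
  have a5 : (2 * M + 1) * ((n + 1) * ((2 * M) * ((2 * M) * (n + 1)))) ≤ 24 * (M ^ 3 * n ^ 2) := by
    calc (2 * M + 1) * ((n + 1) * ((2 * M) * ((2 * M) * (n + 1))))
        ≤ (3 * M) * ((n + 1) * ((2 * M) * ((2 * M) * (n + 1)))) := Nat.mul_le_mul_right _ (by omega)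
      _ = 12 * M ^ 3 * ((n + 1) * (n + 1)) := by ring
      _ ≤ 12 * M ^ 3 * (2 * n ^ 2) := Nat.mul_le_mul_left _ a3
      _ = 24 * (M ^ 3 * n ^ 2) := by ring
  have a6 : M + 2 ≤ 3 * (M ^ 3 * n ^ 2) := by nlinarith
  calc M + 2 + (2 * M + 1) * ((n + 1) * ((2 * M) * ((2 * M) * (n + 1))))
      ≤ 3 * (M ^ 3 * n ^ 2) + 24 * (M ^ 3 * n ^ 2) := Nat.add_le_add a6 a5
    _ = 27 * (M ^ 3 * n ^ 2) := by ring
    _ ≤ n ^ 2 * (M ^ 3 * n ^ 2) := Nat.mul_le_mul_right _ (by omega)
    _ = M ^ 3 * n ^ 4 := by ring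

end H693SR
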